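import Mathlib

/-! No zero-one law for the return of the greedy random walk to its start. -/

open Finset MeasureTheory

namespace Pool.Agent.Results.MP_3fb035_pr.NoLawB

section defs
variable {V : Type} [DecidableEq V] (G : SimpleGraph V) [G.LocallyFinite]

/-- edges crossed up to time `t` along the path `x` -/
def used (x : ℕ → V) (t : ℕ) : Finset (Sym2 V) := (range t).image fun s => s(x s, x (s + 1))

/-- neighbours of `v` joined to `v` by an edge not in `H` -/
def free (H : Finset (Sym2 V)) (v : V) : Finset V := (G.neighborFinset v).filter fun w => s(v, w) ∉ H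

/-- probability of the step from `v` to `w` when the edges in `H` have been crossed -/
noncomputable def step (H : Finset (Sym2 V)) (v w : V) : ℝ :=
  if (free G H v).Nonempty then (if w ∈ free G H v then 1 / (free G H v).card else 0)
  else if w ∈ G.neighborFinset v then 1 / G.degree v else 0

/-- the process follows `x` up to time `t` -/
def cyl {Ω : Type} (X : ℕ → Ω → V) (x : ℕ → V) (t : ℕ) : Set Ω := {ω | ∀ i ≤ t, X i ω = x i}

/-- `X` is a greedy random walk with the uniform rule on `G` started at `o` -/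
def IsGRW (o : V) {Ω : Type} [MeasurableSpace Ω] (P : Measure Ω) (X : ℕ → Ω → V) : Prop :=
  (∀ t v, MeasurableSet {ω | X t ω = v}) ∧ (∀ᵐ ω ∂P, X 0 ω = o) ∧ ∀ (x : ℕ → V) (t : ℕ),
    P (cyl X x (t + 1)) = P (cyl X x t) * ENNReal.ofReal (step G (used x t) (x t) (x (t + 1)))

/-- vertex-transitivity -/
def Transitive (G : SimpleGraph V) : Prop := ∀ u v : V, ∃ φ : G ≃g G, φ u = v

variable {G}

lemma used_congr {x y : ℕ → V} {t : ℕ} (h : ∀ i ≤ t, x i = y i) : used x t = used y t :=
  image_congr fun s hs => by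
    have := mem_range.1 hs
    simp only [h s (by omega), h (s + 1) (by omega)]

lemma used_succ (x : ℕ → V) (t : ℕ) : used x (t + 1) = insert s(x t, x (t + 1)) (used x t) := by
  simp [used, range_add_one]

lemma card_free_insert {H : Finset (Sym2 V)} {u w : V} (hw : w ∈ free G H u) (v : V) :
    (free G (insert s(u, w) H) v).card + ((if v = u then 1 else 0) + if v = w then 1 else 0) = (free G H v).card := by
  obtain ⟨hadj, hH⟩ := mem_filter.1 hw
  rw [SimpleGraph.mem_neighborFinset] at hadj
  have hwu := hadj.ne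
  by_cases h1 : v = u
  · subst h1
    have : free G (insert s(v, w) H) v = (free G H v).erase w := by
      ext y; simp only [free, mem_filter, mem_insert, mem_erase, Sym2.eq_iff]; grind
    rw [this, if_pos rfl, if_neg hwu]; exact card_erase_add_one hw
  · by_cases h2 : v = w
    · subst h2
      have hu : u ∈ free G H v := mem_filter.2 ⟨by simpa using hadj.symm, by rwa [Sym2.eq_swap]⟩
      have : free G (insert s(u, v) H) v = (free G H v).erase u := by
        ext y; simp only [free, mem_filter, mem_insert, mem_erase, Sym2.eq_iff]; grind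
      rw [this, if_neg h1, if_pos rfl]; exact card_erase_add_one hu
    · have : free G (insert s(u, w) H) v = free G H v := by
        ext y; simp only [free, mem_filter, mem_insert, Sym2.eq_iff]; grind
      simp [this, h1, h2]

lemma ae_valid [Countable V] {o : V} {Ω : Type} [MeasurableSpace Ω] {P : Measure Ω} {X : ℕ → Ω → V}
    (hX : IsGRW G o P X) : ∀ᵐ ω ∂P, ∀ t, step G (used (fun i => X i ω) t) (X t ω) (X (t + 1) ω) ≠ 0 := by
  refine ae_all_iff.2 fun t => ?_
  set e : (Fin (t + 2) → V) → ℕ → V := fun h i => if hi : i < t + 2 then h ⟨i, hi⟩ else o with he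
  refine measure_mono_null (t := ⋃ h : {h : Fin (t + 2) → V // step G (used (e h) t) (e h t) (e h (t + 1)) = 0},
    cyl X (e h.1) (t + 1)) (fun ω hω => ?_) (measure_iUnion_null fun h => by rw [hX.2.2, h.2]; simp)
  have h1 : ∀ i ≤ t + 1, e (fun j => X j ω) i = X i ω := fun i hi => by
    simp only [he, dif_pos (Nat.lt_succ_of_le hi)]
  refine Set.mem_iUnion.2 ⟨⟨fun j => X j ω, ?_⟩, fun i hi => (h1 i hi).symm⟩
  rw [used_congr fun i hi => h1 i (by omega), h1 t (by omega), h1 (t + 1) le_rfl]
  exact of_not_not hω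

lemma cyl_pos {o : V} {Ω : Type} [MeasurableSpace Ω] {P : Measure Ω} [IsProbabilityMeasure P] {X : ℕ → Ω → V}
    (hX : IsGRW G o P X) (x : ℕ → V) (h0 : x 0 = o) (t : ℕ) (h : ∀ s < t, x (s + 1) ∈ free G (used x s) (x s)) :
    P (cyl X x t) ≠ 0 := by
  induction t with
  | zero =>
    intro hc
    have h1 : ∀ᵐ ω ∂P, False := by
      filter_upwards [hX.2.1, measure_eq_zero_iff_ae_notMem.1 hc] with ω h1 h2
      exact h2 fun i hi => by rw [Nat.le_zero.1 hi, h1, h0]
    exact IsProbabilityMeasure.ne_zero P (by simpa using h1)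
  | succ t ih =>
    rw [hX.2.2]
    have h1 := h t (by omega)
    refine mul_ne_zero (ih fun s hs => h s (by omega)) (ENNReal.ofReal_pos.2 ?_).ne'
    rw [step, if_pos ⟨_, h1⟩, if_pos h1]
    have := card_pos.2 ⟨_, h1⟩
    positivity

end defs

/-- the integers with steps one and two -/
def G : SimpleGraph ℤ where
  Adj a b := b = a + 1 ∨ b = a - 1 ∨ b = a + 2 ∨ b = a - 2
  symm := ⟨fun a b h => by omega⟩
  loopless := ⟨fun a h => by omega⟩

/-- local finiteness -/
noncomputable def lf : G.LocallyFinite := fun v =>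
  Set.Finite.fintype ((Set.toFinite ({v + 1, v - 1, v + 2, v - 2} : Set ℤ)).subset fun w hw => by
    simpa [G] using hw)

attribute [local instance] lf

lemma mem_free (H : Finset (Sym2 ℤ)) (v w : ℤ) :
    w ∈ free G H v ↔ (w = v + 1 ∨ w = v - 1 ∨ w = v + 2 ∨ w = v - 2) ∧ s(v, w) ∉ H := by
  simp [free, G]

lemma card_empty (v : ℤ) : (free G ∅ v).card = 4 := by
  have : free G ∅ v = {v + 1, v - 1, v + 2, v - 2} := by ext w; simp [mem_free]
  rw [this, card_insert_of_notMem (by simp; omega), card_insert_of_notMem (by simp; omega), card_pair (by omega)]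

lemma never (x : ℕ → ℤ) (h0 : x 0 = 0) (h1 : x 1 = 2) (h2 : x 2 = 1) (h3 : x 3 = 3)
    (h : ∀ t, step G (used x t) (x t) (x (t + 1)) ≠ 0) (t : ℕ) (ht : 3 ≤ t) :
    2 ≤ x t ∧ (s(0, 2) ∈ used x t ∧ s(2, 1) ∈ used x t ∧ s(1, 3) ∈ used x t) ∧
      ∀ v, 2 ≤ v → Even ((free G (used x t) v).card + if v = x t then 1 else 0) := by
  induction t, ht using Nat.le_induction with
  | base =>
    have e : used x 3 = insert s(1, 3) (insert s(2, 1) (insert s(0, 2) ∅)) := by
      rw [used_succ, used_succ, used_succ, h0, h1, h2, h3]; rfl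
    refine ⟨by omega, by simp [e], fun v hv => ?_⟩
    have a1 := card_free_insert (G := G) (H := ∅) (u := 0) (w := 2) (by simp [mem_free]) v
    have a2 := card_free_insert (G := G) (H := insert s(0, 2) ∅) (u := 2) (w := 1) (by simp [mem_free]) v
    have a3 := card_free_insert (G := G) (H := insert s(2, 1) (insert s(0, 2) ∅)) (u := 1) (w := 3)
      (by simp [mem_free]) v
    rw [card_empty] at a1
    rw [e, h3, Nat.even_iff]
    split_ifs at a1 a2 a3 ⊢ <;> omega
  | succ t ht ih =>
    obtain ⟨i1, i2, i3⟩ := ih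
    have hne : (free G (used x t) (x t)).Nonempty := by
      have := i3 _ i1
      rw [if_pos rfl, Nat.even_iff] at this
      exact card_pos.1 (by omega)
    have hw : x (t + 1) ∈ free G (used x t) (x t) := by
      have := h t
      rw [step, if_pos hne] at this
      exact of_not_not fun hc => this (if_neg hc)
    rw [used_succ]
    refine ⟨?_, ⟨mem_insert_of_mem i2.1, mem_insert_of_mem i2.2.1, mem_insert_of_mem i2.2.2⟩, fun v hv => ?_⟩
    · obtain ⟨a1, a2⟩ := (mem_free _ _ _).1 hw
      by_contra hc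
      have : (x t = 2 ∧ x (t + 1) = 0) ∨ (x t = 2 ∧ x (t + 1) = 1) ∨ (x t = 3 ∧ x (t + 1) = 1) := by omega
      rcases this with ⟨e1, e2⟩ | ⟨e1, e2⟩ | ⟨e1, e2⟩ <;> rw [e1, e2] at a2
      · exact a2 (Sym2.eq_swap ▸ i2.1)
      · exact a2 i2.2.1
      · exact a2 (Sym2.eq_swap ▸ i2.2.2)
    · have a1 := card_free_insert hw v
      have a2 := i3 v hv
      rw [Nat.even_iff] at a2 ⊢
      split_ifs at a1 a2 ⊢ <;> omega

theorem result : ∃ (V : Type) (_ : DecidableEq V) (G : SimpleGraph V) (_ : G.LocallyFinite),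
    Infinite V ∧ G.Connected ∧ Transitive G ∧ ∃ o : V,
      ∀ (Ω : Type) [MeasurableSpace Ω] (P : Measure Ω) [IsProbabilityMeasure P] (X : ℕ → Ω → V),
        IsGRW G o P X → 0 < P {ω | ∃ t, 1 ≤ t ∧ X t ω = o} ∧ P {ω | ∃ t, 1 ≤ t ∧ X t ω = o} < 1 := by
  refine ⟨ℤ, inferInstance, G, lf, inferInstance, ?_, fun u v => ?_, 0, fun Ω _ P _ X hX => ⟨?_, ?_⟩⟩
  · have : ∀ n : ℤ, G.Reachable 0 n := fun n => by
      induction n using Int.induction_on with
      | zero => rfl
      | succ k ih => exact ih.trans (SimpleGraph.Adj.reachable (Or.inl rfl))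
      | pred k ih => exact ih.trans (SimpleGraph.Adj.reachable (Or.inr (Or.inl rfl)))
    exact ⟨fun a b => (this a).symm.trans (this b)⟩
  · refine ⟨⟨Equiv.addRight (v - u), fun {a b} => ?_⟩, by simp⟩
    simp only [G, Equiv.coe_addRight]; omega
  · set x : ℕ → ℤ := fun i => if i = 1 then 1 else if i = 2 then 2 else 0 with hx
    refine (pos_iff_ne_zero.2 (cyl_pos hX x rfl 3 fun s hs => ?_)).trans_le
      (measure_mono fun ω hω => ⟨3, by norm_num, hω 3 le_rfl⟩)
    interval_cases s <;> simp [mem_free, used, range_add_one, hx]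
  · set x : ℕ → ℤ := fun i => if i = 1 then 2 else if i = 2 then 1 else if i = 3 then 3 else 0 with hx
    have hm : MeasurableSet {ω | ∃ t, 1 ≤ t ∧ X t ω = 0} := by
      rw [Set.setOf_exists]
      exact .iUnion fun t => (MeasurableSet.const _).inter (hX.1 t 0)
    refine lt_of_le_of_ne prob_le_one fun hc => cyl_pos hX x rfl 3 (fun s hs => ?_) ?_
    · interval_cases s <;> simp [mem_free, used, range_add_one, hx]
    · refine measure_eq_zero_iff_ae_notMem.2 ?_
      filter_upwards [ae_valid hX, (mem_ae_iff_prob_eq_one hm).2 hc] with ω h1 ⟨t, ht1, ht2⟩ hω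
      have e1 := hω 1 (by norm_num)
      have e2 := hω 2 (by norm_num)
      by_cases h : 3 ≤ t
      · have := (never (fun i => X i ω) (hω 0 (by norm_num)) e1 e2 (hω 3 le_rfl) h1 t h).1
        omega
      · have : t = 1 ∨ t = 2 := by omega
        rcases this with rfl | rfl <;> simp_all

end Pool.Agent.Results.MP_3fb035_pr.NoLawB
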